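import Pool.Agent.W97.KE.Stm

set_option autoImplicit false

/-!
Project KE (helper97), parts BEZ and INF.
-/

open scoped Classical

namespace Pool.Agent.W15.KE

open Pool.Agent.W97.KE

theorem galois_aux (i : Algebra ℚ Qb) (h : @IsAlgClosure ℚ Qb _ _ i _) : IsGalois ℚ Qb := by
  have e : i = DivisionRing.toRatAlgebra := Subsingleton.elim _ _
  subst e
  exact IsAlgClosure.isGalois ℚ Qb

instance qbGalois : IsGalois ℚ Qb :=
  galois_aux (AlgebraicClosure.instAlgebra ℚ)
    (@IsAlgClosure.mk ℚ Qb _ _ (AlgebraicClosure.instAlgebra ℚ) _ (AlgebraicClosure.isAlgClosed ℚ)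
      (AlgebraicClosure.isAlgebraic ℚ))

theorem fix_adjoin (T : Set Qb) (g : GQ) (h : ∀ t ∈ T, g t = t) (x : Qb)
    (hx : x ∈ IntermediateField.adjoin ℚ T) : g x = x := by
  induction hx using IntermediateField.adjoin_induction with
  | mem x hx => exact h x hx
  | algebraMap x => exact g.commutes x
  | add x y _ _ hx hy => rw [map_add, hx, hy]
  | inv x _ hx => rw [map_inv₀, hx]
  | mul x y _ _ hx hy => rw [map_mul, hx, hy]

theorem H_closed (p m : ℕ) : IsClosed ((H p m : Subgroup GQ) : Set GQ) := by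
  have h1 : H p m = (IntermediateField.adjoin ℚ
      {z : Qb | ∃ n : ℕ, z ^ (m * p ^ (n + 1)) = 1}).fixingSubgroup := by
    ext g
    rw [IntermediateField.mem_fixingSubgroup_iff]
    constructor
    · intro hg x hx
      exact fix_adjoin _ g (fun t ht => by
        obtain ⟨n, hn⟩ := ht
        exact hg n t hn) x hx
    · intro hg n z hz
      exact hg z (IntermediateField.subset_adjoin _ _ ⟨n, hz⟩)
  rw [h1]
  exact InfiniteGalois.fixingSubgroup_isClosed _

instance H_compact (p m : ℕ) : CompactSpace (H p m) :=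
  isCompact_iff_compactSpace.1 (H_closed p m).isCompact

/-- the order of a cocycle -/
theorem exists_pow {W : WeierstrassCurve ℤ} {p m : ℕ} {d : H p m → Pt W Qb}
    (hd : IsCocycle W p m d) : ∃ k : ℕ, ∀ g, p ^ k • d g = 0 := by
  have hfin := hd.cont.range_finite
  choose f hf using hd.tors
  have h1 : ∀ y ∈ Set.range d, ∃ k : ℕ, p ^ k • y = 0 := by
    rintro _ ⟨g, rfl⟩
    exact ⟨f g, hf g⟩
  choose! k hk using h1
  refine ⟨hfin.toFinset.sup k, fun g => ?_⟩
  have h2 : k (d g) ≤ hfin.toFinset.sup k := Finset.le_sup (hfin.mem_toFinset.2 ⟨g, rfl⟩)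
  obtain ⟨c, hc⟩ := Nat.exists_eq_add_of_le h2
  rw [hc, pow_add, mul_comm, mul_smul, hk _ ⟨g, rfl⟩, smul_zero]

theorem locTriv_zsmul {W : WeierstrassCurve ℤ} {p m : ℕ} {k Ω : Type} [Field k] [Field Ω]
    [Algebra k Ω] {c : H p m → Pt W Qb} (hc : LocTriv W p m k Ω c) (x : ℤ) :
    LocTriv W p m k Ω (x • c) := by
  let G : AddSubgroup (H p m → Pt W Qb) :=
    { carrier := {c | LocTriv W p m k Ω c}
      add_mem' := fun ha hb => LocTriv.add ha hb
      zero_mem' := LocTriv.zero
      neg_mem' := fun ha => LocTriv.neg ha }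
  exact G.zsmul_mem hc x

theorem s_bez : S_BEZ := by
  intro W p m _ k Ω _ _ _ d hd N hN hl
  obtain ⟨K, hK⟩ := exists_pow hd
  have hcop : IsCoprime (N : ℤ) ((p ^ K : ℕ) : ℤ) :=
    Nat.isCoprime_iff_coprime.2 (Nat.Coprime.pow_right K hN)
  obtain ⟨x, y, hxy⟩ := hcop
  have h1 : d = x • (N • d) := by
    funext g
    have h2 : (x * N + y * ((p ^ K : ℕ) : ℤ)) • d g = d g := by rw [hxy, one_smul]
    rw [add_smul, mul_smul, mul_smul, natCast_zsmul, natCast_zsmul, hK g, smul_zero, add_zero] at h2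
    exact h2.symm
  rw [h1]
  exact locTriv_zsmul hl x

theorem s_inf : S_INF := by
  intro W p m hp hp2 d hd ι
  refine ⟨0, fun g τ hτ => ?_⟩
  have hd1 : d 1 = 0 := by
    have h1 := hd.mul 1 1
    rw [mul_one] at h1
    have h2 : act W (1 : H p m).1 (d 1) = d 1 := act_one W (d 1)
    rw [h2] at h1
    exact left_eq_add.1 h1
  have hτ1 : ∀ z : ℂ, τ z = z := by
    rcases Complex.real_algHom_eq_id_or_conj (τ : ℂ →ₐ[ℝ] ℂ) with h | h
    · intro z
      exact DFunLike.congr_fun h z
    · exfalso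
      have : NeZero p := ⟨hp.ne_zero⟩
      obtain ⟨ζ, hζ⟩ : ∃ ζ : Qb, IsPrimitiveRoot ζ p :=
        HasEnoughRootsOfUnity.exists_primitiveRoot Qb p
      have h1 : g.1 ζ = ζ := by
        apply g.2 0 ζ
        rw [zero_add, pow_one, mul_comm, pow_mul, hζ.pow_eq_one, one_pow]
      have h2 : τ (ι ζ) = ι ζ := by rw [← hτ, h1]
      have h3 : (starRingEnd ℂ) (ι ζ) = ι ζ := by
        rw [← h2]
        have := DFunLike.congr_fun h (ι ζ)
        have e1 : τ (ι ζ) = (starRingEnd ℂ) (ι ζ) := this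
        rw [h2]
        exact e1.symm.trans h2
      obtain ⟨r, hr⟩ := Complex.conj_eq_iff_real.1 h3
      have h4 : (ι ζ) ^ p = 1 := by rw [← map_pow, hζ.pow_eq_one, map_one]
      have h5 : r ^ p = 1 := by
        rw [hr] at h4
        exact_mod_cast h4
      have hodd : Odd p := hp.odd_of_ne_two hp2
      have h6 : r = 1 := by
        rcases lt_trichotomy r 1 with h | h | h
        · rcases le_or_gt 0 r with h0 | h0
          · exact absurd h5 (pow_lt_one₀ h0 h hp.ne_zero).ne
          · have : r ^ p < 0 := hodd.pow_neg h0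
            linarith
        · exact h
        · exact absurd h5 (one_lt_pow₀ h hp.ne_zero).ne'
      have h7 : ι ζ = ι 1 := by rw [hr, h6]; simp
      have h8 : ζ = 1 := ι.injective h7
      exact hζ.ne_one hp.one_lt h8
  have hg : g = 1 := by
    apply Subtype.ext
    apply AlgEquiv.ext
    intro x
    apply ι.injective
    rw [hτ, hτ1]
    rfl
  rw [hg, hd1]
  simp

end Pool.Agent.W15.KE
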